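import Pool.Agent.H434Z.HankelDefs
import Pool.Agent.H434Z.HankelMain

set_option autoImplicit false

namespace Pool.Agent.Results.MP_dc9318_an.NoHSHankel

open Pool.Agent.H434Z.Hankel (IsReinhardt Op IsHSHankel)

/-- On a bounded Reinhardt domain in `ℂⁿ`, `n ≥ 2`, a Hilbert-Schmidt Hankel operator whose symbol
is the conjugate of a holomorphic function is zero. -/
theorem result (n : ℕ) (hn : 2 ≤ n) (Ω : Set (Fin n → ℂ)) (ho : IsOpen Ω) (hc : IsConnected Ω)
    (hb : Bornology.IsBounded Ω) (hR : IsReinhardt Ω) (f : (Fin n → ℂ) → ℂ)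
    (hf : DifferentiableOn ℂ f Ω) (T : Op Ω)
    (hT : IsHSHankel (fun z => (starRingEnd ℂ) (f z)) T) : ∀ g, T g = 0 := by
  rw [Pool.Agent.H434Z.Hankel.main hn ho hc hb hR hf T hT]
  exact fun _ => rfl

end Pool.Agent.Results.MP_dc9318_an.NoHSHankel
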